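import Pool.Agent.KS6_37.EL.Main

/-!
# Which pairs of exponential-logarithmic towers have a common upper bound

The tower with base `2` is the least tower (it is the tower `EL^alg` of all algebraic bases). If the
tower with base `a` is another one, then it is contained in the towers of only countably many bases
`c`, and has a common upper bound with the towers of only countably many bases `b`.

The elements of all towers are values `f(s)`, `s` a logarithm of the base, of countably many
analytic functions `f`, which take their values in the towers: `f(s)` is in the tower of `s` for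
every `s` in the domain of `f`. If `a` is in the towers of uncountably many `s`, one of the `f` is
constant with value `a` on an open set; this set contains a logarithm of an element of `ℚ(i)`, so
that `a` is in the least tower.
-/

set_option autoImplicit false

namespace Pool.Agent.Results.MP_21d915_nt.LeastTowerDichotomy

open Cardinal Pool.Agent.KS6_37

/-- The algebraic closure in `ℂ` of the subfield generated by `S`. -/
def algCl (S : Set ℂ) : Set ℂ := {z | IsAlgebraic (Subfield.closure S) z}

/-- `b ^ x = e ^ (x ln b)`, with the principal value `ln b`. -/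
noncomputable def pw (b x : ℂ) : ℂ := Complex.exp (x * Complex.log b)

/-- `EL_n` for the base `b`: `EL_0 = ℚ`, and `EL_{n+1}` is the algebraic closure of the field
generated by `EL_n`, the powers `b ^ x`, `x ∈ EL_n`, and the numbers `w` with `b ^ w ∈ EL_n`. -/
noncomputable def EL (b : ℂ) : ℕ → Set ℂ
  | 0 => Set.range ((↑) : ℚ → ℂ)
  | n + 1 => algCl (EL b n ∪ {y | ∃ x ∈ EL b n, y = pw b x} ∪ {w | pw b w ∈ EL b n})

/-- The exponential-logarithmic tower with base `b`. -/
def Tower (b : ℂ) : Set ℂ := ⋃ n, EL b n

/-- Some tower contains the towers with bases `a` and `b`. -/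
def HaveUpperBound (a b : ℂ) : Prop := ∃ c : ℂ, c ≠ 0 ∧ c ≠ 1 ∧ Tower a ⊆ Tower c ∧ Tower b ⊆ Tower c

lemma EL_eq (b : ℂ) (n : ℕ) : EL b n = EL.lev (Complex.log b) n := by
  induction n with
  | zero => rfl
  | succ n ih =>
    show algCl (EL b n ∪ {y | ∃ x ∈ EL b n, y = pw b x} ∪ {w | pw b w ∈ EL b n}) = _
    rw [ih]
    rfl

lemma Tower_eq (b : ℂ) : Tower b = EL.W (Complex.log b) := by
  rw [Tower, EL.W]
  exact Set.iUnion_congr fun n => EL_eq b n

lemma HUB_iff (a b : ℂ) : HaveUpperBound a b ↔ EL.HB a b := by
  rw [HaveUpperBound, EL.HB]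
  simp only [Tower_eq]

/-- **Upper bounds of pairs of towers.** The tower with base `2` is contained in every tower. The
tower with base `a` is equal to it if and only if `a` is in it; otherwise the tower with base `a` is
contained in the towers of only countably many bases, and has a common upper bound with the towers
of only countably many bases. There are continuum many bases, no two of which have towers with a
common upper bound. -/
theorem result :
    (∀ c : ℂ, c ≠ 0 → c ≠ 1 → Tower 2 ⊆ Tower c) ∧
    (∀ a : ℂ, a ≠ 0 → a ≠ 1 → (Tower a = Tower 2 ↔ a ∈ Tower 2) ∧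
      (Tower a ≠ Tower 2 →
        {c : ℂ | c ≠ 0 ∧ c ≠ 1 ∧ Tower a ⊆ Tower c}.Countable ∧
        {b : ℂ | b ≠ 0 ∧ b ≠ 1 ∧ HaveUpperBound a b}.Countable)) ∧
    ∃ P : Set ℂ, #P = 𝔠 ∧ (∀ a ∈ P, a ≠ 0 ∧ a ≠ 1) ∧
      ∀ a ∈ P, ∀ b ∈ P, a ≠ b → ¬ HaveUpperBound a b := by
  simp only [HUB_iff, Tower_eq]
  refine ⟨fun c h0 h1 => EL.two_le h0 h1, fun a h0 h1 => ⟨EL.eq_two_iff h0 h1, fun hne => ?_⟩,
    EL.exists_antichain⟩
  have ha : a ∉ EL.W (Complex.log 2) := fun h => hne ((EL.eq_two_iff h0 h1).2 h)
  exact ⟨EL.countable_bases h0 ha, EL.countable_compat h0 ha⟩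

end Pool.Agent.Results.MP_21d915_nt.LeastTowerDichotomy
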